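import Pool.Agent.H776R2.Diam.Tsm
import Pool.Agent.H776R2.Diam.Axi
import Pool.Agent.H776R2.Diam.IterG
import Pool.Agent.H776R2.Diam.Spec
import Pool.Agent.H776R2.Diam.Chain
import Pool.Agent.H776R2.Diam.Ker
import Pool.Agent.H776R2.Diam.Diam
import Pool.Agent.H776R2.Diam.Fin2

set_option autoImplicit false

/-!
# The diameters of the level quotients of the Grigorchuk group: exact order of magnitude

`G n = G / st_G(n)`, acting on the words of length `n`; `D n` is the diameter of its Cayley graph with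
respect to `{a, b, c, d}`, and `L 1 = 2, L 2 = 4, L 3 = 8, L (n+3) = L (n+2) + 2 L (n+1) + 4 L n`
(definitions in `Pool/Agent/Results/MP_b99418_al/ExactLength.lean`).  We prove
`L n ≤ D n ≤ C * L n` for all `n ≥ 2` and a constant `C`; in other words `D n = Θ(λ^n)` with
`λ^3 = λ^2 + 2 λ + 4`, `λ ≈ 2.4675`.
-/

namespace Pool.Agent.Results.MP_b99418_al.DiamOrder

open Pool.Agent.H776R2.Grig Pool.Agent.H776R2.Diam Pool.Agent.Results.MP_b99418_al

theorem short_words : ∃ C : ℝ, 0 < C ∧ ∀ (n : ℕ) (w : List Pool.Agent.Results.MP_03d093_al.SphereBall.Lt),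
    ∃ w' : List Pool.Agent.Results.MP_03d093_al.SphereBall.Lt,
    (w'.length : ℝ) ≤ C * lam ^ n ∧ ∀ u : List Bool, u.length = n → 
      Pool.Agent.Results.MP_03d093_al.SphereBall.ev w u =
        Pool.Agent.Results.MP_03d093_al.SphereBall.ev w' u :=
  short_words_of ⟨R1_one, R1_mul, R1_congr, R1_comm, R1_special, R1_small⟩
    ⟨R2_one, R2_mul, R2_congr, R2_comm, R2_special, R2_small⟩ (fun _ hR => chain hR) kernel

/-- **The order of magnitude of the diameters.** There is a real `l > 0` with `l³ = l² + 2l + 4`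
(`2.465 < l < 2.47`) and there are constants `c, C > 0` such that `c l^n ≤ D n ≤ C l^n` for all `n ≥ 2`;
more precisely `L n ≤ D n ≤ C * L n` for all `n ≥ 2`, where `L` is the integer sequence
`L 1 = 2, L 2 = 4, L 3 = 8, L (n+3) = L (n+2) + 2 L (n+1) + 4 L n`. -/
theorem result :
    (∃ l : ℝ, 0 < l ∧ l ^ 3 = l ^ 2 + 2 * l + 4 ∧ 2.465 < l ∧ l < 2.47 ∧
      ∃ c C : ℝ, 0 < c ∧ 0 < C ∧ ∀ n : ℕ, 2 ≤ n →
        c * l ^ n ≤ (ExactLength.D n : ℝ) ∧ (ExactLength.D n : ℝ) ≤ C * l ^ n) ∧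
    (∃ C : ℝ, 0 < C ∧ ∀ n : ℕ, 2 ≤ n →
      ExactLength.L n ≤ ExactLength.D n ∧ (ExactLength.D n : ℝ) ≤ C * (ExactLength.L n : ℝ)) := by
  obtain ⟨C1, hC1, h1⟩ := lam_le_L
  obtain ⟨C2, hC2, h2⟩ := D_le_of_short short_words
  have hLD : ∀ n : ℕ, 2 ≤ n → ExactLength.L n ≤ ExactLength.D n := fun n hn =>
    (ExactLength.result n hn).2.2
  refine ⟨⟨lam, lam_pos, lam_eq, lam_gt, lam_lt.trans (by norm_num), 1 / C1, C2, by positivity, hC2,
    fun n hn => ⟨?_, h2 n⟩⟩, C2 * C1, by positivity, fun n hn => ⟨hLD n hn, ?_⟩⟩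
  · have h3 := h1 n (by omega)
    have h4 : (ExactLength.L n : ℝ) ≤ ExactLength.D n := by exact_mod_cast hLD n hn
    have h5 : lam ^ n ≤ C1 * (ExactLength.D n : ℝ) := h3.trans (mul_le_mul_of_nonneg_left h4 hC1.le)
    rw [one_div, inv_mul_le_iff₀ hC1]
    exact h5
  · have h3 := h1 n (by omega)
    calc (ExactLength.D n : ℝ) ≤ C2 * lam ^ n := h2 n
      _ ≤ C2 * (C1 * (ExactLength.L n : ℝ)) := mul_le_mul_of_nonneg_left h3 hC2.le
      _ = C2 * C1 * (ExactLength.L n : ℝ) := by ring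

end Pool.Agent.Results.MP_b99418_al.DiamOrder
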